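import Pool.Agent.KS6_63.GFF.Q.Final

/-!
Problem MP_7362d9_pr, question Q1, full answer with probability close to one and uniform length constant.
Fix `0 < α < β < 1`.  There are `L₀, K ≥ 1` and `c > 0` (depending on `α, β` only) such that for every discrete
Gaussian free field on `V_N` (all `N` with `⌊α N⌋ ≥ 1`) and every `lam > 0`
* the annulus between `∂V_{αN}` and `∂V_{βN}` has a crossing in `V_{βN}` with at most `L₀ N` vertices, all of height
  at most `lam`, except with probability at most `K / lam`;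
* for every `L > 0` it has one with at most `L N` vertices except with probability at most
  `K (e^{-c lam} + L^{-4})`.
Moreover with the same `L₀` a crossing with at most `L₀ N` vertices of height at most `lam` exists with probability
bounded below uniformly in `N` at every real level `lam`.
-/

open MeasureTheory ProbabilityTheory H941

namespace Pool.Agent.Results.MP_7362d9_pr.HighProbability

/-- `ShortCrossing α β N lam len f`: there is a nearest-neighbour path inside the box `V_{⌊βN⌋}` from the inner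
boundary of `V_{⌊αN⌋}` to the inner boundary of `V_{⌊βN⌋}`, with at most `len` vertices, on which `f ≤ lam`. -/
def ShortCrossing (α β : ℝ) (N : ℕ) (lam len : ℝ) (f : ℤ × ℤ → ℝ) : Prop :=
  ∃ (u v : ℤ × ℤ) (p : grid.Walk u v),
    u ∈ innerBdry ⌊α * (N : ℝ)⌋₊ ∧ v ∈ innerBdry ⌊β * (N : ℝ)⌋₊ ∧
    (∀ w ∈ p.support, w ∈ box ⌊β * (N : ℝ)⌋₊ ∧ f w ≤ lam) ∧ (p.support.length : ℝ) ≤ len

theorem result :
    ∀ α β : ℝ, 0 < α → α < β → β < 1 →
    ∃ (L₀ K c : ℝ) (N₀ : ℕ), 1 ≤ L₀ ∧ 1 ≤ K ∧ 0 < c ∧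
      (∀ lam : ℝ, 0 < lam → ∀ N : ℕ, 1 ≤ ⌊α * (N : ℝ)⌋₊ →
        ∀ (Ω : Type*) [MeasurableSpace Ω] (P : Measure Ω) (η : ℤ × ℤ → Ω → ℝ), IsDGFF N η P →
          P {ω | ¬ ShortCrossing α β N lam (L₀ * N) (fun v => η v ω)} ≤ ENNReal.ofReal (K / lam) ∧
          ∀ L : ℝ, 0 < L → P {ω | ¬ ShortCrossing α β N lam (L * N) (fun v => η v ω)} ≤
            ENNReal.ofReal (K * (Real.exp (-(c * lam)) + 1 / L ^ 4))) ∧
      (∀ lam : ℝ, ∃ q : ℝ, 0 < q ∧ ∀ N : ℕ, 1 ≤ ⌊α * (N : ℝ)⌋₊ → (0 ≤ lam ∨ N₀ ≤ N) →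
        ∀ (Ω : Type*) [MeasurableSpace Ω] (P : Measure Ω) (η : ℤ × ℤ → Ω → ℝ), IsDGFF N η P →
          ENNReal.ofReal q ≤ P {ω | ShortCrossing α β N lam (L₀ * N) (fun v => η v ω)}) := by
  intro α β hα hαβ hβ
  obtain ⟨L0, K1, hL0, hK1, hA⟩ := H941.annQ.partA α β hα hαβ hβ
  obtain ⟨K2, c, hK2, hc, hB⟩ := H941.annQ.partB α β hα hαβ hβ
  obtain ⟨N0, hC⟩ := H941.annQ.partC α β hα hαβ hβ L0 K1 hL0 hK1 hA
  refine ⟨L0, max K1 K2, c, N0, hL0, hK1.trans (le_max_left _ _), hc, ?_, hC⟩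
  intro lam hlam N h1 Ω _ P η hη
  refine ⟨?_, fun L hL => ?_⟩
  · refine (H941.annQ.transfer α β hβ N lam (L0 * N) P η hη).trans_le ((hA lam hlam N h1).trans ?_)
    apply ENNReal.ofReal_le_ofReal
    exact div_le_div_of_nonneg_right (le_max_left _ _) hlam.le
  · refine (H941.annQ.transfer α β hβ N lam (L * N) P η hη).trans_le ((hB lam L hlam hL N h1).trans ?_)
    apply ENNReal.ofReal_le_ofReal
    apply mul_le_mul_of_nonneg_right (le_max_right _ _)
    have := Real.exp_pos (-(c * lam))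
    positivity

end Pool.Agent.Results.MP_7362d9_pr.HighProbability
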